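import Pool.Agent.L5helper76.EM.Max

/-!
# MP_0ad9bc_an, Q1: transitive symmetric q-shifts are entropy minimal
-/

namespace Pool.Agent.Results.MP_0ad9bc_an.EntropyMinimality

open Filter Topology

/-- One-sided sequences over the alphabet `{0, ..., M}`. -/
abbrev Seqs (M : ℕ) := ℕ → Fin (M + 1)

variable {M : ℕ}

/-- The left shift. -/
def shift (x : Seqs M) : Seqs M := fun i => x (i + 1)

/-- The reflection: `Fin.rev c = M - c`. -/
def refl (x : Seqs M) : Seqs M := fun i => Fin.rev (x i)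

/-- The lexicographic order. -/
def LexLe (x y : Seqs M) : Prop := x = y ∨ ∃ n, (∀ i < n, x i = y i) ∧ x n < y n

/-- The symmetric shift given by a sequence `α` (for `α = α(q)` it is `V_q`). -/
def V (α : Seqs M) : Set (Seqs M) :=
  {x | ∀ n, LexLe (refl α) (shift^[n] x) ∧ LexLe (shift^[n] x) α}

/-- `x` ends in `0^∞`. -/
def EndsInZeros (x : Seqs M) : Prop := ∃ N, ∀ n ≥ N, x n = 0

/-- `x` is an expansion of `1` in base `q`: `∑ x_i q^{-i} = 1` (here `x` is indexed from `0`). -/
def Expands (q : ℝ) (x : Seqs M) : Prop := HasSum (fun n => ((x n : ℕ) : ℝ) / q ^ (n + 1)) 1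

/-- `α` is the quasi-greedy expansion of `1` in base `q`. -/
def IsQuasiGreedy (q : ℝ) (α : Seqs M) : Prop :=
  (¬ EndsInZeros α ∧ Expands q α) ∧ ∀ β : Seqs M, ¬ EndsInZeros β → Expands q β → LexLe β α

/-- The word `u` occurs in a point of `Y`. -/
def Occurs (Y : Set (Seqs M)) (u : List (Fin (M + 1))) : Prop :=
  ∃ x ∈ Y, ∃ k, ∀ i (hi : i < u.length), x (k + i) = u[i]

/-- Transitivity: `u v w` occurs for some `v`, for any two occurring words `u`, `w`. -/
def Transitive (Y : Set (Seqs M)) : Prop :=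
  ∀ u w, Occurs Y u → Occurs Y w → ∃ v, Occurs Y (u ++ v ++ w)

/-- Nonempty, closed, shift-invariant. -/
def IsSubshift (X : Set (Seqs M)) : Prop :=
  X.Nonempty ∧ IsClosed X ∧ ∀ x ∈ X, shift x ∈ X

/-- `h` is the topological entropy of `Y`: the limit of `log |B_n(Y)| / n`. -/
def HasEntropy (Y : Set (Seqs M)) (h : ℝ) : Prop :=
  Tendsto (fun n : ℕ => Real.log
    (Set.ncard {u : List (Fin (M + 1)) | u.length = n ∧ Occurs Y u}) / n) atTop (𝓝 h)

/-- Every proper subshift of `Y` has smaller entropy (both entropies exist as limits). -/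
def EntropyMinimal (Y : Set (Seqs M)) : Prop :=
  ∀ X, IsSubshift X → X ⊂ Y → ∃ h h', HasEntropy X h ∧ HasEntropy Y h' ∧ h < h'

open Pool.Agent.L5helper76.EM

lemma lexLe_iff (x y : Seqs M) : LexLe x y ↔ LLe x y := by
  constructor
  · rintro (rfl | ⟨n, h1, h2⟩)
    · exact LLe_refl x
    · intro m hm
      rcases lt_trichotomy m n with h | h | h
      · exact (h1 m h).le
      · rw [h]; exact h2.le
      · exact absurd (hm n h) (ne_of_lt h2)
  · intro h
    by_cases hxy : x = y
    · exact Or.inl hxy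
    · right
      have h1 : ∃ n, x n ≠ y n := by
        by_contra hcon
        push Not at hcon
        exact hxy (funext hcon)
      classical
      refine ⟨Nat.find h1, fun i hi => ?_, ?_⟩
      · have := Nat.find_min h1 hi
        push Not at this
        exact this
      · refine lt_of_le_of_ne (h _ fun i hi => ?_) (Nat.find_spec h1)
        have := Nat.find_min h1 hi
        push Not at this
        exact this

lemma shift_iter (n : ℕ) (x : Seqs M) : shift^[n] x = sh n x := by
  induction n generalizing x with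
  | zero => simp
  | succ n ih =>
    rw [Function.iterate_succ_apply, ih]
    funext i
    simp only [sh, shift]
    congr 1
    omega

lemma mem_V_iff (α x : Seqs M) : x ∈ V α ↔ InV α x := by
  unfold V InV
  simp only [Set.mem_ofPred_eq, lexLe_iff, shift_iter]
  rfl

lemma sh_one_eq (x : Seqs M) : sh 1 x = shift x := by
  rw [← shift_iter]; rfl

lemma occurs_V_iff {α a : Seqs M} (h : InV a a) (hα : ∀ x, InV α x ↔ InV a x)
    (u : List (Fin (M + 1))) : Occurs (V α) u ↔ Rd a (0, 0) u := by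
  constructor
  · rintro ⟨x, hx, k, hk⟩
    rw [mem_V_iff, hα] at hx
    have h1 : pre (sh k x) u.length = u := (pre_eq_iff _ _).mpr hk
    rw [← h1]
    exact Rd_of_InV (InV_sh hx k) _
  · intro hu
    obtain ⟨x, hx, hxp⟩ := exists_InV h hu
    refine ⟨x, (mem_V_iff _ _).mpr ((hα x).mpr hx), 0, fun i hi => ?_⟩
    rw [zero_add]
    exact (pre_eq_iff _ _).mp hxp i hi

lemma occurs_X_iff {X : Set (Seqs M)} (hXs : ∀ x ∈ X, sh 1 x ∈ X) (u : List (Fin (M + 1))) :
    Occurs X u ↔ BX X u := by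
  constructor
  · rintro ⟨x, hx, k, hk⟩
    exact ⟨sh k x, sh_mem hXs k x hx, (pre_eq_iff _ _).mpr hk⟩
  · rintro ⟨x, hx, hxp⟩
    refine ⟨x, hx, 0, fun i hi => ?_⟩
    rw [zero_add]
    exact (pre_eq_iff _ _).mp hxp i hi

lemma ncard_eq {Y : Set (Seqs M)} {P : List (Fin (M + 1)) → Prop}
    (hP : ∀ u, Occurs Y u ↔ P u) (n : ℕ) :
    Set.ncard {u : List (Fin (M + 1)) | u.length = n ∧ Occurs Y u} = num P n := by
  classical
  have h1 : {u : List (Fin (M + 1)) | u.length = n ∧ Occurs Y u} =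
      ((allW M n).filter P : Finset (List (Fin (M + 1)))) := by
    ext u
    simp [hP]
  rw [h1, Set.ncard_coe_finset, num]

lemma limClosed_of_isClosed {X : Set (Seqs M)} (hX : IsClosed X) : LimClosed X := by
  intro x hx
  choose y hy hyx using hx
  refine hX.mem_of_tendsto (f := y) (b := atTop) ?_ (Eventually.of_forall hy)
  rw [tendsto_pi_nhds]
  intro i
  apply tendsto_const_nhds.congr'
  filter_upwards [eventually_gt_atTop i] with m hm
  exact (hyx m i hm).symm

/-- Every transitive symmetric shift is entropy minimal. -/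
theorem general (α : Seqs M) (hT : Transitive (V α)) : EntropyMinimal (V α) := by
  rintro X ⟨⟨x1, hx1⟩, hXc, hXs⟩ hXV
  have hsub : ∀ x ∈ X, InV α x := fun x hx => (mem_V_iff α x).mp (hXV.1 hx)
  obtain ⟨a, ha, hα⟩ := exists_base ⟨x1, hsub x1 hx1⟩
  have hXs' : ∀ x ∈ X, sh 1 x ∈ X := fun x hx => by rw [sh_one_eq]; exact hXs x hx
  have hoV := occurs_V_iff ha hα
  have hoX := occurs_X_iff hXs'
  have hTr : Tr a := by
    intro u w hu hw
    obtain ⟨v, hv⟩ := hT u w ((hoV u).mpr hu) ((hoV w).mpr hw)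
    refine ⟨v, ?_⟩
    rw [← List.append_assoc]
    exact (hoV _).mp hv
  obtain ⟨x, hxV, hxX⟩ := Set.exists_of_ssubset hXV
  obtain ⟨w0, hw0, hw0'⟩ := exists_missing (limClosed_of_isClosed hXc)
    ((hα x).mp ((mem_V_iff α x).mp hxV)) hxX
  obtain ⟨h1, h2, hh1, hh2, hlt⟩ := main_words ha hTr hXs'
    (fun x hx => (hα x).mp (hsub x hx)) ⟨x1, hx1⟩ hw0 hw0'
  refine ⟨h1, h2, ?_, ?_, hlt⟩
  · unfold HasEntropy
    simp only [ncard_eq hoX]
    exact hh1
  · unfold HasEntropy
    simp only [ncard_eq hoV]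
    exact hh2

/-- **Q1, positive answer.**  For every `M ≥ 1` and `q ∈ (1, M+1]`, if the symmetric `q`-shift
`V_q` is transitive then it is entropy minimal.  The same holds for the symmetric shift given by
an arbitrary sequence `α`. -/
theorem result :
    (∀ M : ℕ, 1 ≤ M → ∀ q : ℝ, 1 < q → q ≤ M + 1 → ∀ α : Seqs M, IsQuasiGreedy q α →
      Transitive (V α) → EntropyMinimal (V α)) ∧
    (∀ (M : ℕ) (α : Seqs M), Transitive (V α) → EntropyMinimal (V α)) :=
  ⟨fun _ _ _ _ _ α _ hT => general α hT, fun _ α hT => general α hT⟩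

end Pool.Agent.Results.MP_0ad9bc_an.EntropyMinimality
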